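import Mathlib

/-!
THEOREM A (MP_c6d112_nt): definitions.

`PP z0 z`: the sieving primes; `Rough`: no prime factor in `(z0, z]`; `nu z0 z a b`: normalised
indicator of the integers `n` for which all forms `a j * n + b j` are rough; `ee`: exponentials;
`ft`, `mean`, `ch`: Fourier transform on `ZMod p`.
-/

set_option autoImplicit false

namespace Pool.Agent.Lib.TwinAll

open Finset

/-- the sieving primes: primes in `(z0, z]` -/
def PP (z0 z : ℕ) : Finset ℕ := (Finset.Ioc z0 z).filter Nat.Prime

/-- `n` has no prime factor in `(z0, z]` -/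
def Rough (z0 z : ℕ) (n : ℤ) : Prop := ∀ q ∈ PP z0 z, ¬ ((q : ℤ) ∣ n)

/-- number of roots modulo `q` of the product of the forms `a j * n + b j` -/
noncomputable def om {k : ℕ} (a b : Fin k → ℤ) (q : ℕ) : ℕ :=
  ((Finset.range q).filter (fun n : ℕ => ∃ j, (q : ℤ) ∣ a j * n + b j)).card

/-- sieve density -/
noncomputable def VV (z0 z : ℕ) {k : ℕ} (a b : Fin k → ℤ) : ℝ :=
  ∏ q ∈ PP z0 z, (1 - (om a b q : ℝ) / q)

open Classical in
/-- normalised indicator function of all forms `a j * n + b j` being rough -/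
noncomputable def nu (z0 z : ℕ) {k : ℕ} (a b : Fin k → ℤ) (n : ℤ) : ℝ :=
  if ∀ j, Rough z0 z (a j * n + b j) then (VV z0 z a b)⁻¹ else 0

/-- sum of `1/p` over the primes in `(x, y]` -/
noncomputable def SS (x y : ℕ) : ℝ := ∑ p ∈ PP x y, (1 : ℝ) / p

section group

variable {p : ℕ} [NeZero p]

end group

end Pool.Agent.Lib.TwinAll
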