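import Mathlib
import Pool.Agent.Lib.MP_bf61d2_nt.Trim.X.TwinAll.Defs

/-!
THEOREM A (MP_c6d112_nt), helper94: basic facts about `om`, `VV`, `nu`, `PP`, `SS`, `ee`, `lam`.
-/

set_option autoImplicit false

namespace Pool.Agent.Lib.TwinAll

open Finset

/-! ### sieving primes -/

theorem mem_PP {z0 z q : ℕ} : q ∈ PP z0 z ↔ (z0 < q ∧ q ≤ z) ∧ q.Prime := by
  simp [PP]

theorem PP_prime {z0 z q : ℕ} (h : q ∈ PP z0 z) : q.Prime := (mem_PP.1 h).2

theorem PP_lt {z0 z q : ℕ} (h : q ∈ PP z0 z) : z0 < q := (mem_PP.1 h).1.1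

/-! ### roots -/

theorem om_le {k : ℕ} (a b : Fin k → ℤ) {q : ℕ} (hq : q.Prime)
    (ha : ∀ j, ¬ ((q : ℤ) ∣ a j)) : om a b q ≤ k := by
  classical
  unfold om
  have h1 : (Finset.range q).filter (fun n : ℕ => ∃ j, (q : ℤ) ∣ a j * n + b j) ⊆
      (Finset.univ : Finset (Fin k)).biUnion
        (fun j => (Finset.range q).filter (fun n : ℕ => (q : ℤ) ∣ a j * n + b j)) := by
    intro n hn
    rw [Finset.mem_filter] at hn
    obtain ⟨hn1, j, hj⟩ := hn
    rw [Finset.mem_biUnion]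
    exact ⟨j, Finset.mem_univ _, Finset.mem_filter.2 ⟨hn1, hj⟩⟩
  refine (Finset.card_le_card h1).trans (Finset.card_biUnion_le.trans ?_)
  have h2 : ∀ j ∈ (Finset.univ : Finset (Fin k)),
      ((Finset.range q).filter (fun n : ℕ => (q : ℤ) ∣ a j * n + b j)).card ≤ 1 := by
    intro j _
    rw [Finset.card_le_one]
    intro n hn n' hn'
    rw [Finset.mem_filter, Finset.mem_range] at hn hn'
    have h3 : (q : ℤ) ∣ a j * ((n : ℤ) - n') := by
      have := dvd_sub hn.2 hn'.2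
      have h4 : a j * (n : ℤ) + b j - (a j * n' + b j) = a j * ((n : ℤ) - n') := by ring
      rwa [h4] at this
    have h5 : (q : ℤ) ∣ ((n : ℤ) - n') :=
      ((Nat.prime_iff_prime_int.1 hq).dvd_or_dvd h3).resolve_left (ha j)
    have h6 : |(n : ℤ) - n'| < q := by
      rw [abs_lt]; constructor <;> omega
    have h7 := Int.eq_zero_of_abs_lt_dvd h5 h6
    omega
  calc ∑ j, ((Finset.range q).filter (fun n : ℕ => (q : ℤ) ∣ a j * n + b j)).card
      ≤ ∑ _j : Fin k, 1 := Finset.sum_le_sum h2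
    _ = k := by simp

/-! ### sieve densities -/

theorem VV_factor_pos {z0 z k : ℕ} (hk : k ≤ z0) (a b : Fin k → ℤ)
    (ha : ∀ j, ∀ q ∈ PP z0 z, ¬ ((q : ℤ) ∣ a j)) {q : ℕ} (hq : q ∈ PP z0 z) :
    (1 : ℝ) - (k : ℝ) / q ≤ 1 - (om a b q : ℝ) / q ∧ 0 < (1 : ℝ) - (k : ℝ) / q := by
  have h1 : om a b q ≤ k := om_le a b (PP_prime hq) (fun j => ha j q hq)
  have h2 : k < q := lt_of_le_of_lt hk (PP_lt hq)
  have hq0 : (0 : ℝ) < q := by exact_mod_cast (by omega : 0 < q)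
  have h1' : (om a b q : ℝ) ≤ k := by exact_mod_cast h1
  have h2' : (k : ℝ) < q := by exact_mod_cast h2
  constructor
  · have := div_le_div_of_nonneg_right h1' hq0.le
    linarith
  · rw [sub_pos, div_lt_one hq0]; exact h2'

theorem VV_pos {z0 z k : ℕ} (hk : k ≤ z0) (a b : Fin k → ℤ)
    (ha : ∀ j, ∀ q ∈ PP z0 z, ¬ ((q : ℤ) ∣ a j)) : 0 < VV z0 z a b := by
  unfold VV
  refine Finset.prod_pos (fun q hq => ?_)
  have h := VV_factor_pos hk a b ha hq
  linarith [h.1, h.2]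

/-- telescoping product -/
theorem prod_Ioc_desc (z0 k z : ℕ) (hk : k ≤ z0) (hz : z0 ≤ z) :
    (∏ n ∈ Finset.Ioc z0 z, (1 - (k : ℝ) / n)) * (z.descFactorial k : ℝ) =
      (z0.descFactorial k : ℝ) := by
  induction z, hz using Nat.le_induction with
  | base => simp
  | succ z hz ih =>
    rw [← Finset.insert_Ioc_right_eq_Ioc_add_one (by omega : z0 ≤ z),
      Finset.prod_insert (by simp)]
    have h1 : ((z + 1 - k : ℕ) : ℝ) * ((z + 1).descFactorial k : ℝ) =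
        ((z : ℝ) + 1) * (z.descFactorial k : ℝ) := by
      exact_mod_cast Nat.succ_descFactorial z k
    have h2 : ((z + 1 - k : ℕ) : ℝ) = (z : ℝ) + 1 - k := by
      rw [Nat.cast_sub (by omega)]; push_cast; ring
    have h3 : ((z + 1 : ℕ) : ℝ) ≠ 0 := by positivity
    rw [← ih]
    have h4 : (1 - (k : ℝ) / ((z + 1 : ℕ) : ℝ)) * ((z + 1).descFactorial k : ℝ) =
        (z.descFactorial k : ℝ) := by
      rw [h2] at h1
      push_cast at h3 ⊢
      field_simp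
      linarith
    calc (1 - (k : ℝ) / ((z + 1 : ℕ) : ℝ)) * (∏ n ∈ Finset.Ioc z0 z, (1 - (k : ℝ) / n)) *
          ((z + 1).descFactorial k : ℝ)
        = (∏ n ∈ Finset.Ioc z0 z, (1 - (k : ℝ) / n)) *
          ((1 - (k : ℝ) / ((z + 1 : ℕ) : ℝ)) * ((z + 1).descFactorial k : ℝ)) := by ring
      _ = _ := by rw [h4]

theorem VV_ge {z0 z k : ℕ} (hk : k ≤ z0) (hz : z0 ≤ z) (a b : Fin k → ℤ)
    (ha : ∀ j, ∀ q ∈ PP z0 z, ¬ ((q : ℤ) ∣ a j)) : 1 ≤ VV z0 z a b * (z : ℝ) ^ k := by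
  have h1 : (∏ n ∈ Finset.Ioc z0 z, (1 - (k : ℝ) / n)) ≤ VV z0 z a b := by
    unfold VV
    have h2 : (∏ n ∈ Finset.Ioc z0 z, (1 - (k : ℝ) / n)) ≤
        ∏ q ∈ PP z0 z, (1 - (k : ℝ) / q) := by
      have hsub : PP z0 z ⊆ Finset.Ioc z0 z := Finset.filter_subset _ _
      rw [← Finset.prod_sdiff hsub]
      have h3 : (∏ n ∈ Finset.Ioc z0 z \ PP z0 z, (1 - (k : ℝ) / n)) ≤ 1 := by
        refine Finset.prod_le_one (fun n hn => ?_) (fun n hn => ?_)
        · rw [Finset.mem_sdiff, Finset.mem_Ioc] at hn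
          have hn0 : (0 : ℝ) < n := by exact_mod_cast (by omega : 0 < n)
          have : (k : ℝ) ≤ n := by exact_mod_cast (by omega : k ≤ n)
          rw [sub_nonneg, div_le_one hn0]; exact this
        · have : (0 : ℝ) ≤ (k : ℝ) / n := by positivity
          linarith
      have h4 : 0 ≤ ∏ q ∈ PP z0 z, (1 - (k : ℝ) / q) :=
        Finset.prod_nonneg (fun q hq => (VV_factor_pos hk a b ha hq).2.le)
      calc _ ≤ 1 * ∏ q ∈ PP z0 z, (1 - (k : ℝ) / q) := mul_le_mul_of_nonneg_right h3 h4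
        _ = _ := one_mul _
    refine h2.trans (Finset.prod_le_prod (fun q hq => (VV_factor_pos hk a b ha hq).2.le)
      (fun q hq => (VV_factor_pos hk a b ha hq).1))
  have h5 : (z.descFactorial k : ℝ) ≤ (z : ℝ) ^ k := by
    exact_mod_cast Nat.descFactorial_le_pow z k
  have h6 : (1 : ℝ) ≤ (z0.descFactorial k : ℝ) := by
    have : 0 < z0.descFactorial k := Nat.descFactorial_pos.2 hk
    exact_mod_cast this
  rw [← prod_Ioc_desc z0 k z hk hz] at h6
  have h7 : 0 < VV z0 z a b := VV_pos hk a b ha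
  refine h6.trans ?_
  refine (mul_le_mul_of_nonneg_right h1 (by positivity)).trans ?_
  exact mul_le_mul_of_nonneg_left h5 h7.le

theorem VV_inv_le {z0 z k : ℕ} (hk : k ≤ z0) (hz : z0 ≤ z) (a b : Fin k → ℤ)
    (ha : ∀ j, ∀ q ∈ PP z0 z, ¬ ((q : ℤ) ∣ a j)) : (VV z0 z a b)⁻¹ ≤ (z : ℝ) ^ k := by
  have h1 := VV_ge hk hz a b ha
  have h2 := VV_pos hk a b ha
  rw [inv_le_iff_one_le_mul₀ h2]
  linarith [mul_comm (VV z0 z a b) ((z : ℝ) ^ k)]

/-! ### the weights -/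

/-! ### exponentials and the Liouville function -/

end Pool.Agent.Lib.TwinAll
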