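import Mathlib
import Pool.Agent.Lib.MP_bf61d2_nt.Trim.X.TwinAll.Defs

/-!
THEOREM A (MP_c6d112_nt): statements of the modules, as propositions. A module proves
`theorem S1 : S1Stmt` etc., possibly from the statements of earlier modules given as hypotheses.
-/

set_option autoImplicit false

namespace Pool.Agent.Lib.TwinAll

open Finset

/-- S1: Brun-Hooley weights of precision `1 ± ε` (uniform in `h`). -/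
def S1Stmt : Prop :=
  ∀ (k : ℕ) (ε : ℝ), 0 < ε → ∃ s zs : ℕ, ∀ z0 : ℕ, zs ≤ z0 → ∀ z : ℕ, z0 ≤ z →
    ∃ U L : Finset ℕ → ℝ, (∀ D, |U D| ≤ 1 ∧ |L D| ≤ 1) ∧
      (∀ D, D ⊆ PP z0 z → (U D ≠ 0 ∨ L D ≠ 0) → ∏ q ∈ D, q ≤ z ^ s) ∧
      (∀ h : ℕ → ℝ, (∀ q, 0 ≤ h q ∧ h q ≤ 1) →
        (∑ D ∈ (PP z0 z).powerset, L D * ∏ q ∈ D, h q) ≤ ∏ q ∈ PP z0 z, (1 - h q) ∧
        ∏ q ∈ PP z0 z, (1 - h q) ≤ ∑ D ∈ (PP z0 z).powerset, U D * ∏ q ∈ D, h q) ∧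
      (∀ h : ℕ → ℝ, (∀ q ∈ PP z0 z, 0 ≤ h q ∧ h q ≤ (k : ℝ) / q) →
        (∑ D ∈ (PP z0 z).powerset, U D * ∏ q ∈ D, h q) ≤ (1 + ε) * ∏ q ∈ PP z0 z, (1 - h q) ∧
        (1 - ε) * ∏ q ∈ PP z0 z, (1 - h q) ≤ ∑ D ∈ (PP z0 z).powerset, L D * ∏ q ∈ D, h q)

/-- S2: mean value of `nu` over an interval. -/
def S2Stmt : Prop :=
  ∀ (k : ℕ) (ε : ℝ), 0 < ε → ∃ s zs : ℕ, ∀ z0 : ℕ, zs ≤ z0 → ∃ z1 : ℕ, ∀ z : ℕ, z1 ≤ z →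
    ∀ a b : Fin k → ℤ, (∀ j, ∀ q ∈ PP z0 z, ¬ ((q : ℤ) ∣ a j)) →
    ∀ (u : ℤ) (H : ℕ), z ^ s ≤ H →
      |(∑ n ∈ Finset.Ioc u (u + H), nu z0 z a b n) - H| ≤ ε * H

end Pool.Agent.Lib.TwinAll
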