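import Mathlib
import Pool.Agent.Lib.MP_bf61d2_nt.Trim.X.TwinAll.Basic94
import Pool.Agent.Lib.MP_bf61d2_nt.Trim.X.TwinAll.Defs
import Pool.Agent.Lib.MP_bf61d2_nt.Trim.X.TwinAll.S2core49
import Pool.Agent.Lib.MP_bf61d2_nt.Trim.X.TwinAll.Stmts

/-!
THEOREM A (MP_c6d112_nt): S2 and S2b from the general sieve estimate `T49.core`.
-/

set_option autoImplicit false

namespace Pool.Agent.Lib.TwinAll.T49

open Finset

theorem S2alt : S2Stmt := by
  intro k ε hε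
  obtain ⟨s0, zs0, hcore⟩ := core k (ε / 2) (by positivity)
  refine ⟨2 * s0 + k + 1, max zs0 k, fun z0 hz0 => ⟨max z0 (max 1 (⌈2 / ε⌉₊)), ?_⟩⟩
  intro z hz a b ha u H hH
  have hz0' : zs0 ≤ z0 := (le_max_left _ _).trans hz0
  have hk : k ≤ z0 := (le_max_right _ _).trans hz0
  have hzz : z0 ≤ z := (le_max_left _ _).trans hz
  have hz1 : 1 ≤ z := ((le_max_left _ _).trans (le_max_right _ _)).trans hz
  have hz2 : 2 / ε ≤ z := (Nat.le_ceil _).trans (by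
    exact_mod_cast ((le_max_right _ _).trans (le_max_right _ _)).trans hz)
  have hzR : (1 : ℝ) ≤ z := by exact_mod_cast hz1
  have hzpos : (0 : ℝ) < z := by linarith
  have h1 := hcore z0 hz0' z hzz (fun q n => ∃ j, (q : ℤ) ∣ a j * n + b j) (by
    intro q _ n m hnm
    have : ∀ j, ((q : ℤ) ∣ a j * n + b j ↔ (q : ℤ) ∣ a j * m + b j) := by
      intro j
      have h2 : a j * n + b j = a j * m + b j + a j * (n - m) := by ring
      rw [h2]
      exact dvd_add_left (dvd_mul_of_dvd_right hnm _)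
    exact exists_congr this) (by
    intro q hq
    exact om_le a b (PP_prime hq) (fun j => ha j q hq)) u H
  have hV : VV z0 z a b = ∏ q ∈ PP z0 z, (1 - ((((range q).filter
      (fun r : ℕ => ∃ j, (q : ℤ) ∣ a j * r + b j)).card : ℕ) : ℝ) / q) := rfl
  have hVp := VV_pos hk a b ha
  have hVi := VV_inv_le hk hzz a b ha
  have hsum : ∑ n ∈ Ioc u (u + H), nu z0 z a b n = (VV z0 z a b)⁻¹ *
      (((Ioc u (u + H)).filter (fun n => ∀ q ∈ PP z0 z,
        ¬ ∃ j, (q : ℤ) ∣ a j * n + b j)).card : ℝ) := by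
    rw [Finset.card_filter]
    push_cast
    rw [Finset.mul_sum]
    apply Finset.sum_congr rfl
    intro n _
    have h3 : (∀ j, Rough z0 z (a j * n + b j)) ↔
        ∀ q ∈ PP z0 z, ¬ ∃ j, (q : ℤ) ∣ a j * n + b j := by
      constructor
      · rintro h q hq ⟨j, hj⟩
        exact h j q hq hj
      · intro h j q hq hj
        exact h q hq ⟨j, hj⟩
    unfold nu
    by_cases h4 : ∀ j, Rough z0 z (a j * n + b j)
    · rw [if_pos h4, if_pos (h3.1 h4), mul_one]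
    · rw [if_neg h4, if_neg (fun h => h4 (h3.2 h)), mul_zero]
  rw [← hV] at h1
  set W := VV z0 z a b with hW
  set N : ℝ := (((Ioc u (u + H)).filter (fun n => ∀ q ∈ PP z0 z,
        ¬ ∃ j, (q : ℤ) ∣ a j * n + b j)).card : ℝ) with hN
  have hWi : 0 < W⁻¹ := inv_pos.2 hVp
  have hHR : ((z : ℝ) ^ (2 * s0 + k + 1)) ≤ H := by exact_mod_cast hH
  have herr : W⁻¹ * (z : ℝ) ^ (2 * s0) ≤ ε / 2 * H := by
    have h5 : W⁻¹ * (z : ℝ) ^ (2 * s0) ≤ (z : ℝ) ^ k * (z : ℝ) ^ (2 * s0) :=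
      mul_le_mul_of_nonneg_right hVi (by positivity)
    have h6 : (z : ℝ) ^ k * (z : ℝ) ^ (2 * s0) * z ≤ H := by
      refine le_trans (le_of_eq ?_) hHR
      ring
    have h7 : 1 ≤ ε / 2 * z := by
      rw [div_le_iff₀ hε] at hz2
      linarith
    calc W⁻¹ * (z : ℝ) ^ (2 * s0) ≤ (z : ℝ) ^ k * (z : ℝ) ^ (2 * s0) := h5
      _ ≤ (z : ℝ) ^ k * (z : ℝ) ^ (2 * s0) * (ε / 2 * z) :=
        le_mul_of_one_le_right (by positivity) h7
      _ = ε / 2 * ((z : ℝ) ^ k * (z : ℝ) ^ (2 * s0) * z) := by ring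
      _ ≤ ε / 2 * H := mul_le_mul_of_nonneg_left h6 (by positivity)
  have hWW : W⁻¹ * W = 1 := inv_mul_cancel₀ hVp.ne'
  have h8 := mul_le_mul_of_nonneg_left h1.1 hWi.le
  have h9 := mul_le_mul_of_nonneg_left h1.2 hWi.le
  have h10 : W⁻¹ * ((1 - ε / 2) * (H * W) - (z : ℝ) ^ (2 * s0)) =
      (1 - ε / 2) * H * (W⁻¹ * W) - W⁻¹ * (z : ℝ) ^ (2 * s0) := by ring
  have h11 : W⁻¹ * ((1 + ε / 2) * (H * W) + (z : ℝ) ^ (2 * s0)) =
      (1 + ε / 2) * H * (W⁻¹ * W) + W⁻¹ * (z : ℝ) ^ (2 * s0) := by ring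
  rw [h10, hWW] at h8
  rw [h11, hWW] at h9
  rw [hsum, abs_le]
  constructor
  · linarith
  · linarith

end Pool.Agent.Lib.TwinAll.T49
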