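import Mathlib
import Pool.Agent.Lib.MP_bf61d2_nt.Trim.X.TwinAll.Defs

/-!
THEOREM A (MP_c6d112_nt): elementary facts on `PP`, `Rough`, `om`, `VV`, `nu`; behaviour under
the substitution `n = d * t + c` with `d` prime to the sieving primes.
-/

set_option autoImplicit false

namespace Pool.Agent.Lib.TwinAll.A81

open Finset

theorem mem_PP {z0 z q : ℕ} : q ∈ PP z0 z ↔ z0 < q ∧ q ≤ z ∧ q.Prime := by
  simp [PP, and_assoc]

section om

variable {k k' : ℕ}

theorem om_eq_zmod (a b : Fin k → ℤ) (q : ℕ) [NeZero q] :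
    om a b q = (univ.filter (fun x : ZMod q =>
      ∃ j, ((a j : ℤ) : ZMod q) * x + ((b j : ℤ) : ZMod q) = 0)).card := by
  unfold om
  have key : ∀ n : ℕ, (∃ j, (q : ℤ) ∣ a j * (n : ℤ) + b j) ↔
      ∃ j, ((a j : ℤ) : ZMod q) * ((n : ℕ) : ZMod q) + ((b j : ℤ) : ZMod q) = 0 := by
    intro n
    apply exists_congr
    intro j
    rw [← ZMod.intCast_zmod_eq_zero_iff_dvd]
    push_cast
    rfl
  refine Finset.card_bij (fun n _ => ((n : ℕ) : ZMod q)) ?_ ?_ ?_
  · intro n hn
    rw [mem_filter] at hn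
    rw [mem_filter]
    exact ⟨mem_univ _, (key n).1 hn.2⟩
  · intro n hn m hm hnm
    rw [mem_filter, mem_range] at hn hm
    have h1 := (ZMod.natCast_eq_natCast_iff' n m q).1 hnm
    rwa [Nat.mod_eq_of_lt hn.1, Nat.mod_eq_of_lt hm.1] at h1
  · intro x hx
    rw [mem_filter] at hx
    refine ⟨x.val, ?_, ?_⟩
    · rw [mem_filter, mem_range]
      refine ⟨ZMod.val_lt x, (key _).2 ?_⟩
      rw [ZMod.natCast_zmod_val]
      exact hx.2
    · exact ZMod.natCast_zmod_val x

theorem om_le_self (a b : Fin k → ℤ) (q : ℕ) : om a b q ≤ q := by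
  unfold om
  exact (Finset.card_filter_le _ _).trans (Finset.card_range q).le

/-- each form with leading coefficient prime to `q` has at most one root -/
theorem om_le {a b : Fin k → ℤ} {q : ℕ} (hq : q.Prime) (h : ∀ j, ¬ ((q : ℤ) ∣ a j)) :
    om a b q ≤ k := by
  have := Fact.mk hq
  rw [om_eq_zmod]
  have h1 : (univ.filter (fun x : ZMod q =>
      ∃ j, ((a j : ℤ) : ZMod q) * x + ((b j : ℤ) : ZMod q) = 0)) ⊆
      (univ : Finset (Fin k)).image
        (fun j => - ((b j : ℤ) : ZMod q) * (((a j : ℤ) : ZMod q))⁻¹) := by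
    intro x hx
    rw [mem_filter] at hx
    obtain ⟨j, hj⟩ := hx.2
    rw [mem_image]
    refine ⟨j, mem_univ _, ?_⟩
    have ha : ((a j : ℤ) : ZMod q) ≠ 0 := by
      intro h0
      exact h j ((ZMod.intCast_zmod_eq_zero_iff_dvd _ _).1 h0)
    field_simp
    linear_combination -hj
  calc _ ≤ _ := Finset.card_le_card h1
    _ ≤ _ := Finset.card_image_le
    _ = k := by simp

/-- a form with leading coefficient prime to `q` has a root -/
theorem one_le_om {a b : Fin k → ℤ} {q : ℕ} (hq : q.Prime) (j : Fin k)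
    (h : ¬ ((q : ℤ) ∣ a j)) : 1 ≤ om a b q := by
  have := Fact.mk hq
  rw [om_eq_zmod, Nat.one_le_iff_ne_zero, Finset.card_ne_zero]
  have ha : ((a j : ℤ) : ZMod q) ≠ 0 := by
    intro h0
    exact h ((ZMod.intCast_zmod_eq_zero_iff_dvd _ _).1 h0)
  refine ⟨- ((b j : ℤ) : ZMod q) * (((a j : ℤ) : ZMod q))⁻¹, ?_⟩
  rw [mem_filter]
  refine ⟨mem_univ _, j, ?_⟩
  field_simp
  ring

/-- for one form there is exactly one root -/
theorem om_one {a b : Fin 1 → ℤ} {q : ℕ} (hq : q.Prime) (h : ¬ ((q : ℤ) ∣ a 0)) :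
    om a b q = 1 :=
  le_antisymm (om_le hq (fun j => by rw [Subsingleton.elim j 0]; exact h)) (one_le_om hq 0 h)

end om

section VV

variable {k k' : ℕ}

end VV

section nu

variable {k k' : ℕ}

end nu

end Pool.Agent.Lib.TwinAll.A81
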