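import Mathlib
import Pool.Agent.Lib.MP_bf61d2_nt.Trim.X.MP_3be4fe_nt.Bessel
import Pool.Agent.Lib.MP_bf61d2_nt.Trim.X.MP_3be4fe_nt.Sharp
import Pool.Agent.Lib.MP_bf61d2_nt.Trim.X.TwinAll.Aff81
import Pool.Agent.Lib.MP_bf61d2_nt.Trim.X.TwinAll.Defs

/-!
THEOREM A (MP_c6d112_nt), module S5: the correlation constant of two primes is 1 on average.
-/

set_option autoImplicit false

namespace Pool.Agent.Lib.TwinAll.A81
end Pool.Agent.Lib.TwinAll.A81

namespace Pool.Agent.Lib.TwinAll

open Finset A81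

/-! ### Mertens on `PP z0 z` -/

theorem SS_bounds82 : ∃ C : ℝ, 0 ≤ C ∧ ∀ z0 z : ℕ, 3 ≤ z0 → z0 ≤ z →
    Real.log (Real.log z) - Real.log (Real.log z0) - C ≤ SS z0 z ∧
    SS z0 z ≤ Real.log (Real.log z) - Real.log (Real.log z0) + C := by
  obtain ⟨C, hC⟩ := Pool.Agent.Lib.MP_3be4fe_nt.mertens_second
  have hC0 : 0 ≤ C := (abs_nonneg _).trans (hC 3 le_rfl)
  refine ⟨2 * C, by linarith, fun z0 z h3 hz => ?_⟩
  have h1 := hC z0 h3
  have h2 := hC z (h3.trans hz)
  have h4 : ∑ p ∈ Pool.Agent.Lib.MP_3be4fe_nt.primesLE z, 1 / (p : ℝ) =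
      ∑ p ∈ Pool.Agent.Lib.MP_3be4fe_nt.primesLE z0, 1 / (p : ℝ) + SS z0 z := by
    unfold SS
    rw [← Finset.sum_union]
    · apply Finset.sum_congr _ (fun _ _ => rfl)
      ext p
      simp only [Pool.Agent.Lib.MP_3be4fe_nt.primesLE, PP, Finset.mem_union, Finset.mem_filter,
        Finset.mem_Iic, Finset.mem_Ioc]
      constructor
      · rintro ⟨a1, a2⟩
        by_cases h : p ≤ z0
        · left; exact ⟨h, a2⟩
        · right; exact ⟨⟨by omega, a1⟩, a2⟩
      · rintro (⟨a1, a2⟩ | ⟨⟨a1, a2⟩, a3⟩)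
        · exact ⟨by omega, a2⟩
        · exact ⟨a2, a3⟩
    · rw [Finset.disjoint_left]
      intro p hp hp'
      simp only [Pool.Agent.Lib.MP_3be4fe_nt.primesLE, PP, Finset.mem_filter,
        Finset.mem_Iic, Finset.mem_Ioc] at hp hp'
      omega
  rw [abs_le] at h1 h2
  rw [h4] at h2
  constructor
  · linarith [h1.1, h1.2, h2.1, h2.2]
  · linarith [h1.1, h1.2, h2.1, h2.2]

/-- upper bound for the one dimensional density -/
theorem V1_le82 : ∃ K : ℝ, 0 < K ∧ ∀ z0 z : ℕ, 3 ≤ z0 → z0 ≤ z →
    VV z0 z (![1] : Fin 1 → ℤ) ![0] ≤ K * Real.log z0 / Real.log z := by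
  obtain ⟨C, hC0, hC⟩ := SS_bounds82
  refine ⟨Real.exp C, Real.exp_pos _, fun z0 z h3 hz => ?_⟩
  have h1 := (hC z0 z h3 hz).1
  have hz0l : 0 < Real.log z0 := Real.log_pos (by exact_mod_cast (by omega : 1 < z0))
  have hzl : 0 < Real.log z := Real.log_pos (by exact_mod_cast (by omega : 1 < z))
  calc VV z0 z (![1] : Fin 1 → ℤ) ![0] ≤ ∏ q ∈ PP z0 z, Real.exp (-(1 / (q : ℝ))) := by
        unfold VV
        apply Finset.prod_le_prod
        · intro q hq
          have hq0 : (0 : ℝ) < q := by exact_mod_cast (mem_PP.1 hq).2.2.pos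
          have h1 : (om (![1] : Fin 1 → ℤ) ![0] q : ℝ) ≤ q := by
            exact_mod_cast om_le_self _ _ q
          rw [sub_nonneg, div_le_one hq0]
          exact h1
        · intro q hq
          have hqp := (mem_PP.1 hq).2.2
          have h2 : om (![1] : Fin 1 → ℤ) ![0] q = 1 := by
            apply om_one hqp
            simp only [Matrix.cons_val_zero]
            intro hd
            have h1 : (q : ℤ) = 1 := Int.eq_one_of_dvd_one (by positivity) hd
            have h2 : q = 1 := by exact_mod_cast h1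
            exact hqp.one_lt.ne' h2
          rw [h2]
          have := Real.add_one_le_exp (-(1 / (q : ℝ)))
          push_cast
          linarith
    _ = Real.exp (-SS z0 z) := by
        rw [← Real.exp_sum, Finset.sum_neg_distrib]; rfl
    _ ≤ Real.exp (C + Real.log (Real.log z0) - Real.log (Real.log z)) := by
        apply Real.exp_le_exp.2
        linarith
    _ = Real.exp C * Real.log z0 / Real.log z := by
        rw [Real.exp_sub, Real.exp_add, Real.exp_log hz0l, Real.exp_log hzl]

/-! ### elementary products -/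

/-! ### number of roots -/

/-! ### the local factors -/

/-! ### the correlation constant -/

/-! ### counting primes in residue classes -/

/-! ### the theorem -/

end Pool.Agent.Lib.TwinAll
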